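import Mathlib
import Pool.Agent.Lib.helper27.Petersen

set_option autoImplicit false

namespace Pool.Agent.Results.MP_b4b0f8_co.Yes

open Finset SimpleGraph Pool.Agent.Lib.helper27.Petersen

variable {V : Type} [Fintype V] [DecidableEq V]

omit [Fintype V] in
theorem par {H : SimpleGraph V} (x : V) {u v : V} (p : H.Walk u v) :
    (p.edges.countP (x ∈ ·) + (if x = u then 1 else 0) + if x = v then 1 else 0) % 2 = 0 := by
  induction p with
  | nil => split_ifs <;> simp
  | cons h p ih =>
    have := h.ne
    simp only [Walk.edges_cons, List.countP_cons, Sym2.mem_iff, decide_eq_true_eq]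
    grind

theorem uniq {G : SimpleGraph V} (hT : G.IsAcyclic) {r v a b : V} (ha : G.Adj a v) (hb : G.Adj b v)
    (ra : G.Reachable r a) (da : G.dist r a + 1 = G.dist r v) (db : G.dist r b + 1 = G.dist r v) :
    a = b := by
  obtain ⟨p, hp⟩ := ra.exists_walk_length_eq_dist
  obtain ⟨q, hq⟩ := ((ra.trans ha.reachable).trans hb.reachable.symm).exists_walk_length_eq_dist
  have h1 : (p.concat ha).IsPath := Walk.isPath_of_length_eq_dist _ (by simp [hp, da])
  have h2 : (q.concat hb).IsPath := Walk.isPath_of_length_eq_dist _ (by simp [hq, db])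
  have := congrArg Subtype.val ((hT.subsingleton_path r v).elim ⟨_, h1⟩ ⟨_, h2⟩)
  exact (Walk.concat_inj this).1

theorem few {H : SimpleGraph V} [DecidableRel H.Adj] (hT : H.IsAcyclic) {D : ℕ} (h1 : 1 ≤ D)
    (hD : ∀ v, H.degree v ≤ D) (W : Finset V)
    (hW : ∀ a ∈ W, ∀ b ∈ W, H.Reachable a b ∧ H.dist a b ≤ 2) : W.card ≤ 2 * D := by
  have d : ∀ a ∈ W, ∀ b ∈ W, a = b ∨ H.Adj a b ∨ H.dist a b = 2 := fun a ha b hb => by
    have := hW a ha b hb
    have := this.1.dist_eq_zero_iff
    rw [← dist_eq_one_iff_adj]; grind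
  by_cases z : ∃ a ∈ W, ∃ b ∈ W, H.Adj a b
  · obtain ⟨a, ha, b, hb, h⟩ := z
    refine (card_le_card (t := H.neighborFinset a ∪ H.neighborFinset b) fun w hw => ?_).trans
      ((card_union_le _ _).trans (two_mul D ▸ add_le_add (hD a) (hD b)))
    have := hT.dist_ne_of_adj h (hW w hw a ha).1
    have := d w hw a ha
    have := d w hw b hb
    have := h.symm
    simp only [mem_union, mem_neighborFinset, H.adj_comm _ w]
    grind
  refine (le_or_gt W.card 1).elim (fun h => by omega) fun h => ?_
  obtain ⟨a, ha, b, hb, ab⟩ := one_lt_card.1 h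
  obtain ⟨p, hp⟩ := (hW a ha b hb).1.exists_walk_length_eq_dist
  rw [((d a ha b hb).resolve_left ab).resolve_left fun g => z ⟨a, ha, b, hb, g⟩] at hp
  obtain _ | ⟨h1, _ | ⟨h2, _ | _⟩⟩ := p <;> simp at hp
  rename_i y
  refine (card_le_card (t := H.neighborFinset y) fun w hw => ?_).trans ((hD y).trans (by omega))
  rw [mem_neighborFinset, adj_comm]
  have r := (hW w hw a ha).1
  have := hT.dist_eq_dist_add_one_of_adj_of_reachable w h1 r
  have := uniq hT h1 h2.symm r
  have := d w hw a ha
  have := d w hw b hb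
  have := h2.symm
  have := dist_eq_one_iff_adj (G := H) (u := w) (v := y)
  grind

theorem comp {H : SimpleGraph V} [DecidableRel H.Adj] [DecidableEq H.ConnectedComponent]
    (hT : H.IsAcyclic) (c : H.ConnectedComponent) :
    ∑ v with H.connectedComponentMk v = c, H.degree v + 2 =
      2 * (univ.filter fun v => H.connectedComponentMk v = c).card := by
  classical
  have a := (hT.isTree_connectedComponent c).card_edgeFinset
  have b := c.toSimpleGraph.sum_degrees_eq_twice_card_edges
  have m : ∀ x, x ∈ (univ.filter fun v => H.connectedComponentMk v = c) ↔ x ∈ c := mem_filter_univ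
  rw [sum_subtype (F := inferInstance) _ m, ← Fintype.card_of_subtype _ m]
  rw [sum_congr rfl (g := fun v : c => H.degree v) fun v _ => ?_] at b
  · rw [b, ← mul_add_one, a]
  refine card_bij (fun w _ => w.1) (fun w h => ?_) (fun _ _ _ _ => Subtype.ext) fun w h => ?_
  · simpa [ConnectedComponent.toSimpleGraph] using h
  · rw [mem_neighborFinset] at h
    exact ⟨⟨w, (ConnectedComponent.connectedComponentMk_eq_of_adj h).symm.trans v.2⟩,
      by simpa [ConnectedComponent.toSimpleGraph] using h, rfl⟩

theorem small [Nonempty V] (G : SimpleGraph V) [DecidableRel G.Adj] (k : ℕ)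
    (h : G.IsRegularOfDegree (2 * k + 1)) : ∃ J ⊆ G.edgeFinset,
      (∀ x, (J.filter (x ∈ ·)).card % 2 = 1) ∧ J.card + k + 1 ≤ Fintype.card V := by
  classical
  obtain ⟨J, hJ, mn⟩ := exists_min_image (G.edgeFinset.powerset.filter fun J =>
    ∀ x, (J.filter (x ∈ ·)).card % 2 = 1) card ⟨G.edgeFinset, mem_filter.2 ⟨mem_powerset_self _, fun x => by
      rw [← incidenceFinset_eq_filter, card_incidenceFinset_eq_degree, h.degree_eq]; omega⟩⟩
  simp only [mem_filter, mem_powerset] at hJ mn
  refine ⟨J, hJ.1, hJ.2, ?_⟩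
  have ex : ∀ L : List (Sym2 V), L.Nodup → (∀ e ∈ L, e ∈ G.edgeSet) →
      (∀ x, L.countP (x ∈ ·) % 2 = 0) → L.countP (· ∈ J) ≤ L.countP (· ∉ J) := fun L l1 l2 l3 => by
    have s : ∀ A B : Finset (Sym2 V), (symmDiff A B).card + 2 * (A ∩ B).card = A.card + B.card := by
      intro A B
      have := card_sdiff_add_card_inter A B
      have := card_sdiff_add_card_inter B A
      rw [symmDiff_def, sup_eq_union, card_union_of_disjoint disjoint_sdiff_sdiff, inter_comm B] at *
      omega
    have := mn (symmDiff J L.toFinset) ⟨symmDiff_subset_union.trans (union_subset hJ.1 fun e he =>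
      mem_edgeFinset.2 (l2 e (List.mem_toFinset.1 he))), fun x => by
        have := s (J.filter (x ∈ ·)) (L.toFinset.filter (x ∈ ·))
        rw [cnt l1, show symmDiff (J.filter (x ∈ ·)) (L.toFinset.filter (x ∈ ·)) =
          (symmDiff J L.toFinset).filter (x ∈ ·) by ext; simp only [mem_symmDiff, mem_filter]; tauto] at this
        have := l3 x
        have := hJ.2 x
        omega⟩
    have a := s J L.toFinset
    rw [inter_comm, ← filter_mem_eq_inter, cnt l1, ← card_filter_add_card_filter_not (s := L.toFinset)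
      (· ∈ J), cnt l1, cnt l1] at a
    omega
  let H := fromEdgeSet (J : Set (Sym2 V))
  have E : ∀ e, e ∈ H.edgeSet ↔ e ∈ J := fun e => by
    simpa [H] using fun he => G.not_isDiag_of_mem_edgeFinset (hJ.1 he)
  have le : ∀ e ∈ J, e ∈ G.edgeSet := fun e he => mem_edgeFinset.1 (hJ.1 he)
  have eJ : ∀ [Fintype H.edgeSet], H.edgeFinset = J := Finset.ext fun e => mem_edgeFinset.trans (E e)
  have wJ : ∀ {u v} (p : H.Walk u v), ∀ e ∈ p.edges, e ∈ J := fun p e he =>
    (E e).1 (p.edges_subset_edgeSet he)
  have c1 : ∀ {u v} (p : H.Walk u v), p.edges.countP (· ∈ J) = p.length ∧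
      p.edges.countP (· ∉ J) = 0 := fun p =>
    ⟨by rw [List.countP_eq_length.2 (by simpa using wJ p), p.length_edges],
      List.countP_eq_zero.2 (by simpa using wJ p)⟩
  have ac : H.IsAcyclic := fun v p hp => by
    have := ex _ hp.edges_nodup (fun e he => le e (wJ p e he)) fun x => by
      have := par x p; split_ifs at this <;> omega
    have := c1 p
    have := hp.three_le_length
    omega
  have b : ∀ u v, H.Reachable u v → G.Adj u v → H.Adj u v := fun u v r a => by
    by_contra n
    obtain ⟨p, p1, p2⟩ := r.exists_path_of_dist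
    have m : s(u, v) ∉ J := fun z => n ((E _).2 z)
    have := ex (s(u, v) :: p.edges) (List.nodup_cons.2 ⟨fun z => m (wJ p _ z), p1.edges_nodup⟩)
      (by simpa [a] using fun e he => le e (wJ p e he)) fun x => by
        have := par x p
        have := a.ne
        simp only [List.countP_cons, Sym2.mem_iff, decide_eq_true_eq]
        grind
    simp only [List.countP_cons, c1 p, m, decide_not, decide_false, p2] at this
    have := r.dist_eq_zero_iff
    have := a.ne
    rw [← dist_eq_one_iff_adj] at n
    grind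
  have c : ∀ u v u' v', H.Reachable u v → H.Reachable u' v' → ¬H.Reachable u u' → G.Adj u u' →
      G.Adj v v' → (u, u') ≠ (v, v') → H.dist u v + H.dist u' v' ≤ 2 := by
    intro u v u' v' r r' n a a' ne
    obtain ⟨p, p1, p2⟩ := r.exists_path_of_dist
    obtain ⟨q, q1, q2⟩ := r'.exists_path_of_dist
    have m : s(u, u') ∉ J := fun z => n (Adj.reachable ((E _).2 z))
    have m' : s(v, v') ∉ J := fun z => n ((r.trans (Adj.reachable ((E _).2 z))).trans r'.symm)
    have := ex (s(u, u') :: s(v, v') :: (p.edges ++ q.edges)) (by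
        simp only [List.nodup_cons, List.mem_cons, List.mem_append, not_or]
        refine ⟨⟨fun z => ?_, fun z => m (wJ _ _ z), fun z => m (wJ _ _ z)⟩,
          ⟨fun z => m' (wJ _ _ z), fun z => m' (wJ _ _ z)⟩,
          p1.edges_nodup.append q1.edges_nodup fun e g g' => n ?_⟩
        · rcases Sym2.eq_iff.1 z with ⟨rfl, rfl⟩ | ⟨rfl, rfl⟩
          exacts [ne rfl, n r]
        · obtain ⟨y, z⟩ := e
          exact (p.takeUntil y (p.fst_mem_support_of_mem_edges g)).reachable.trans
            (q.takeUntil y (q.fst_mem_support_of_mem_edges g')).reachable.symm)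
      (by simpa [a, a', or_imp, forall_and] using
        And.intro (fun e he => le e (wJ p e he)) fun e he => le e (wJ q e he)) fun x => by
        have := par x p
        have := par x q
        have := a.ne
        have := a'.ne
        simp only [List.countP_cons, List.countP_append, Sym2.mem_iff, decide_eq_true_eq]
        grind
    simp only [List.countP_cons, List.countP_append, c1 p, c1 q, p2, q2] at this
    simpa [m, m'] using this
  have dg : ∀ x, H.degree x % 2 = 1 := fun x => by
    rw [← card_incidenceFinset_eq_degree, incidenceFinset_eq_filter, eJ]; exact hJ.2 x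
  obtain ⟨x, -, hx⟩ := exists_max_image univ (fun v => H.degree v) univ_nonempty
  have D1 : 1 ≤ H.degree x := by have := dg x; omega
  obtain ⟨S, s1, s2, s3⟩ : ∃ S : Finset V, S.card = H.degree x ∧
      (∀ a ∈ S, H.degree a = 1 ∧ H.Reachable x a) ∧ ∀ a ∈ S, ∀ b ∈ S, ¬H.Adj a b := by
    rcases D1.eq_or_lt with z | z
    · exact ⟨{x}, by simpa using z, by simp [← z], by simp⟩
    let K := univ.filter fun v => H.connectedComponentMk v = H.connectedComponentMk x
    obtain ⟨S, t, s1⟩ : ∃ S ⊆ K.filter (H.degree · = 1), S.card = H.degree x := by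
      refine exists_subset_card_eq ?_
      have a := comp ac (H.connectedComponentMk x)
      have m : x ∈ K := by simp [K]
      have := sum_le_sum (s := K.erase x) (f := fun _ => 2)
        (g := fun v => H.degree v + if H.degree v = 1 then 1 else 0) fun v _ => by
          have := dg v; split_ifs <;> omega
      rw [sum_add_distrib, ← card_filter, sum_const, smul_eq_mul] at this
      have := card_le_card (filter_subset_filter (H.degree · = 1) (erase_subset x K))
      have := card_erase_add_one m
      rw [← add_sum_erase _ _ m] at a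
      change _ = 2 * K.card at a
      omega
    have s2 : ∀ a ∈ S, H.degree a = 1 ∧ H.Reachable x a := fun a ha => by
      have := mem_filter.1 (t ha)
      exact ⟨this.2, (ConnectedComponent.exact (mem_filter.1 this.1).2).symm⟩
    refine ⟨S, s1, s2, fun a ha b hb g => ?_⟩
    have : ∀ y, H.Reachable a y → y = a ∨ y = b := fun y r => by
      rw [reachable_iff_reflTransGen] at r
      induction r with
      | refl => exact .inl rfl
      | tail _ j ih =>
        rcases ih with rfl | rfl
        · exact .inr ((degree_eq_one_iff_existsUnique_adj.1 (s2 _ ha).1).unique j g)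
        · exact .inl ((degree_eq_one_iff_existsUnique_adj.1 (s2 _ hb).1).unique j g.symm)
    rcases this x (s2 a ha).2.symm with rfl | rfl
    exacts [z.ne' (s2 _ ha).1, z.ne' (s2 _ hb).1]
  let T := (S ×ˢ univ).filter fun a : V × V => G.Adj a.1 a.2 ∧ ¬H.Adj a.1 a.2
  have rS : ∀ a ∈ S, ∀ b ∈ S, H.Reachable a b := fun a ha b hb => (s2 a ha).2.symm.trans (s2 b hb).2
  have mT : ∀ a ∈ T, a.1 ∈ S ∧ G.Adj a.1 a.2 ∧ ¬H.Reachable a.1 a.2 := fun a ha => by
    simp only [T, mem_filter, mem_product] at ha
    exact ⟨ha.1.1, ha.2.1, fun r => ha.2.2 (b _ _ r ha.2.1)⟩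
  have t1 : T.card = H.degree x * (2 * k) := by
    rw [card_filter, sum_product, ← s1, ← smul_eq_mul, ← sum_const]
    refine sum_congr rfl fun a ha => ?_
    have : H.neighborFinset a ⊆ G.neighborFinset a := fun w hw => by
      rw [mem_neighborFinset] at *; exact le _ ((E s(a, w)).1 hw)
    have := card_sdiff_add_card_eq_card this
    rw [card_neighborFinset_eq_degree, card_neighborFinset_eq_degree, (s2 a ha).1, h.degree_eq,
      add_left_inj] at this
    rw [← card_filter, ← this]
    exact congrArg _ (by ext; simp)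
  have t2 := card_le_mul_card_image_of_maps_to (s := T) (f := fun a => H.connectedComponentMk a.2)
    (t := univ.erase (H.connectedComponentMk x)) (fun a ha => mem_erase.2 ⟨fun z => (mT a ha).2.2
      ((s2 _ (mT a ha).1).2.symm.trans (ConnectedComponent.exact z).symm), mem_univ _⟩)
    (2 * H.degree x) fun C _ => by
      set U := T.filter fun a => H.connectedComponentMk a.2 = C
      have u : ∀ a ∈ U, ∀ b ∈ U, H.Reachable a.2 b.2 ∧ (a ≠ b → H.dist a.1 b.1 + H.dist a.2 b.2 ≤ 2) := by
        intro a ha b hb
        have r := ConnectedComponent.exact ((mem_filter.1 ha).2.trans (mem_filter.1 hb).2.symm)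
        have := mT a (mem_filter.1 ha).1
        have g := mT b (mem_filter.1 hb).1
        exact ⟨r, c _ _ _ _ (rS _ this.1 _ g.1) r this.2.2 this.2.1 g.2.1⟩
      by_cases z : ∀ a ∈ U, ∀ b ∈ U, a.1 = b.1
      · rw [← card_image_of_injOn (f := Prod.snd) fun a ha b hb e => Prod.ext (z a ha b hb) e]
        refine few ac D1 (fun v => hx v (mem_univ _)) _ fun a ha b hb => ?_
        obtain ⟨a, p, rfl⟩ := mem_image.1 ha
        obtain ⟨b, q, rfl⟩ := mem_image.1 hb
        have := u a p b q
        by_cases e : a = b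
        · simp [e]
        · exact ⟨this.1, le_add_self.trans (this.2 e)⟩
      push Not at z
      obtain ⟨a, ha, b, hb, z⟩ := z
      have w : ∀ a ∈ U, ∀ b ∈ U, a.1 ≠ b.1 → a.2 = b.2 := fun a ha b hb n => by
        have := (u a ha b hb).2 fun e => n (congrArg _ e)
        have p := (mT a (mem_filter.1 ha).1).1
        have q := (mT b (mem_filter.1 hb).1).1
        have := mt (rS _ p _ q).dist_eq_zero_iff.1 n
        have := mt dist_eq_one_iff_adj.1 (s3 _ p _ q)
        exact (u a ha b hb).1.dist_eq_zero_iff.1 (by omega)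
      refine (card_le_card (t := S ×ˢ {a.2}) fun y hy => ?_).trans (by simp [s1]; omega)
      have := w a ha b hb z
      have := w y hy a ha
      have := w y hy b hb
      exact mem_product.2 ⟨(mT y (mem_filter.1 hy).1).1, mem_singleton.2 (by grind)⟩
  rw [t1, card_erase_of_mem (mem_univ _), mul_comm 2 (H.degree x), mul_assoc] at t2
  have t3 := Nat.le_of_mul_le_mul_left t2 D1
  have a := sum_congr (rfl : univ = univ) fun C _ => comp ac C
  rw [sum_add_distrib, sum_fiberwise univ H.connectedComponentMk, ← mul_sum,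
    ← card_eq_sum_card_fiberwise (f := H.connectedComponentMk) fun _ _ => mem_univ _,
    sum_degrees_eq_twice_card_edges, @eJ, sum_const, smul_eq_mul, card_univ (α := V)] at a
  have := card_pos.2 ⟨H.connectedComponentMk x, mem_univ _⟩
  omega

theorem result [Nonempty V] (G : SimpleGraph V) [DecidableRel G.Adj] (k : ℕ)
    (h : G.IsRegularOfDegree (2 * k + 1)) : ∃ P : Finpartition G.edgeFinset,
      P.parts.card + 1 ≤ Fintype.card V ∧ ∀ F ∈ P.parts, F.card = 1 ∨
        ∀ x : V, (F.filter (x ∈ ·)).card = 0 ∨ (F.filter (x ∈ ·)).card = 2 := by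
  obtain ⟨J, j1, j2, j3⟩ := small G k h
  obtain ⟨c, c1, c2⟩ := petersen k (G.edgeFinset \ J)
    (fun e he => G.not_isDiag_of_mem_edgeFinset (mem_sdiff.1 he).1) fun x => by
      have := card_sdiff_add_card_eq_card (filter_subset_filter (x ∈ ·) j1)
      rw [← incidenceFinset_eq_filter, card_incidenceFinset_eq_degree, h.degree_eq,
        incidenceFinset_eq_filter] at this
      have := j2 x
      rw [show (G.edgeFinset \ J).filter (x ∈ ·) = G.edgeFinset.filter (x ∈ ·) \ J.filter (x ∈ ·) by
        ext; simp only [mem_filter, mem_sdiff]; tauto, Nat.even_iff]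
      omega
  let f : Sym2 V → Sym2 V ⊕ ℕ := fun e => if e ∈ J then .inl e else .inr (c e)
  let g := fun y => G.edgeFinset.filter (f · = y)
  refine ⟨.ofExistsUnique ((G.edgeFinset.image f).image g) (fun F hF => ?_) (fun e he => ?_)
    fun hF => ?_, ?_, fun F hF => ?_⟩
  · obtain ⟨y, -, rfl⟩ := mem_image.1 hF
    exact filter_subset _ _
  · refine ⟨_, ⟨mem_image_of_mem _ (mem_image_of_mem _ he), mem_filter.2 ⟨he, rfl⟩⟩, ?_⟩
    rintro F ⟨p, q⟩
    obtain ⟨y, -, rfl⟩ := mem_image.1 p
    rw [(mem_filter.1 q).2]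
  · obtain ⟨y, p, q⟩ := mem_image.1 hF
    obtain ⟨e, he, rfl⟩ := mem_image.1 p
    exact notMem_empty e (q ▸ mem_filter.2 ⟨he, rfl⟩)
  · refine le_trans (Nat.succ_le_succ (card_image_le.trans ((card_le_card
      (t := J.disjSum (range k)) fun y p => ?_).trans_eq (by simp)))) j3
    obtain ⟨e, he, rfl⟩ := mem_image.1 p
    by_cases z : e ∈ J <;> simp [f, z]
    exact c1 e (mem_sdiff.2 ⟨he, z⟩)
  · obtain ⟨y, p, rfl⟩ := mem_image.1 hF
    obtain ⟨e, he, rfl⟩ := mem_image.1 p
    by_cases z : e ∈ J
    · refine .inl (card_eq_one.2 ⟨e, Finset.ext fun d => ?_⟩)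
      simp only [g, f, z, mem_filter, mem_singleton]
      grind
    · refine .inr fun x => ?_
      convert c2 (c e) x using 4 <;> ext d <;>
        simp only [g, f, z, mem_filter, mem_sdiff] <;> grind

end Pool.Agent.Results.MP_b4b0f8_co.Yes
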